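import Pool.Agent.Lib.MP_fef54c_co.Own
import Pool.Agent.Lib.MP_fef54c_co.Low

set_option autoImplicit false

open Filter Topology

namespace Pool.Agent.Results.MP_fef54c_co.ThreeRows

open Pool.Agent.Lib.MP_fef54c_co

lemma exists_S (n : ℕ) : ∃ S : Set (Fin n → Fin 2), Function.Injective (MS M3 S) ∧
    S.encard = mdim M3 n := by
  have hne : {k : ℕ∞ | ∃ S : Set (Fin n → Fin 2), Function.Injective (MS M3 S) ∧
      S.encard = k}.Nonempty := by
    refine ⟨_, Set.univ, ?_, rfl⟩
    intro x x' h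
    apply LowM.separable n
    funext s
    exact congrFun h ⟨s.1, Set.mem_univ _⟩
  exact csInf_mem hne

lemma ne_top (n : ℕ) : mdim M3 n ≠ ⊤ := by
  obtain ⟨S, -, hS⟩ := exists_S n
  rw [← hS]
  exact (Set.toFinite S).encard_lt_top.ne

lemma low (n : ℕ) (hn : 1 ≤ n) :
    (n : ℝ) * Real.log 4 ≤ ((mdim M3 n).toNat : ℝ) * (3 + Real.log n / 2) := by
  obtain ⟨S, hinj, hS⟩ := exists_S n
  have hfin : S.Finite := Set.toFinite S
  have h1 := LowM.lower n hn hfin.toFinset (by
    intro x x' hx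
    apply hinj
    funext s
    exact congrFun hx ⟨s.1, hfin.mem_toFinset.2 s.2⟩)
  have h2 : (mdim M3 n).toNat = hfin.toFinset.card := by
    rw [← hS, hfin.encard_eq_coe_toFinset_card]
    rfl
  rw [h2]
  exact h1

/-- The matrix `M3` with rows `(0,0)`, `(0,1)`, `(0,3)` is admissible, `m(M3, n)` is finite and
equal to `m(M4, n)` for the matrix `M4` with rows `(0,0)`, `(0,1)`, `(0,2)`, `(0,3)` (indeed the
same sets `S` work for both), `n log 4 ≤ m(M3, n) (3 + (log n) / 2)` for every `n ≥ 1`, and so the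
lower limit of `m(M3, n) log_3 n / n` is at least `2 log_3 4 = 2.52...`, which is larger than `2`:
the answer to Q1 is no. -/
theorem result :
    Admissible M3 ∧
    (∀ (n : ℕ) (S : Set (Fin n → Fin 2)),
      Function.Injective (MS M3 S) ↔ Function.Injective (MS M4 S)) ∧
    (∀ n : ℕ, mdim M3 n = mdim M4 n ∧ mdim M3 n ≠ ⊤) ∧
    (∀ n : ℕ, 1 ≤ n →
      (n : ℝ) * Real.log 4 ≤ ((mdim M3 n).toNat : ℝ) * (3 + Real.log n / 2)) ∧
    (∀ ε : ℝ, 0 < ε → ∀ᶠ n : ℕ in atTop,
      2 * Real.logb 3 4 - ε ≤ ((mdim M3 n).toNat : ℝ) * Real.logb 3 n / n) ∧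
    2 < 2 * Real.logb 3 4 := by
  refine ⟨OwnM.adm3, OwnM.inj_iff, fun n => ⟨OwnM.mdim_eq n, ne_top n⟩, low, ?_, ?_⟩
  · intro ε hε
    have hl3 : 0 < Real.log 3 := Real.log_pos (by norm_num)
    have hl4 : 0 < Real.log 4 := Real.log_pos (by norm_num)
    have h1 : ∀ᶠ n : ℕ in atTop, (12 * Real.log 4 / (Real.log 3 * ε) : ℝ) ≤ Real.log n :=
      (Real.tendsto_log_atTop.comp tendsto_natCast_atTop_atTop).eventually_ge_atTop _
    filter_upwards [h1, eventually_ge_atTop 1] with n hn hn1
    have hn0 : (0 : ℝ) < n := by exact_mod_cast hn1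
    set L : ℝ := Real.log n with hL
    have hL0 : 0 < L := lt_of_lt_of_le (by positivity) hn
    have hlow := low n hn1
    set m : ℝ := ((mdim M3 n).toNat : ℝ) with hm
    -- m ≥ n log 4 / (3 + L / 2)
    have hden : 0 < 3 + L / 2 := by positivity
    have hm1 : (n : ℝ) * Real.log 4 / (3 + L / 2) ≤ m := by
      rw [div_le_iff₀ hden]
      exact hlow
    have h2 : (n : ℝ) * Real.log 4 / (3 + L / 2) * (L / Real.log 3) / n ≤
        m * Real.logb 3 n / n := by
      rw [Real.logb]
      gcongr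
    refine le_trans ?_ h2
    rw [Real.logb]
    have h3 : (n : ℝ) * Real.log 4 / (3 + L / 2) * (L / Real.log 3) / n =
        Real.log 4 / Real.log 3 * (L / (3 + L / 2)) := by
      field_simp
    rw [h3]
    have h4 : L / (3 + L / 2) = 2 - 6 / (3 + L / 2) := by
      field_simp
      ring
    rw [h4]
    have h5 : Real.log 4 / Real.log 3 * (6 / (3 + L / 2)) ≤ ε := by
      have h6 : 6 / (3 + L / 2) ≤ 12 / L := by
        rw [div_le_div_iff₀ hden hL0]
        linarith
      have h7 : Real.log 4 / Real.log 3 * (12 / L) ≤ ε := by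
        rw [div_mul_div_comm, div_le_iff₀ (by positivity)]
        rw [div_le_iff₀ (by positivity)] at hn
        linarith
      exact le_trans (mul_le_mul_of_nonneg_left h6 (by positivity)) h7
    linarith
  · have h : (1 : ℝ) < Real.logb 3 4 := by
      rw [Real.lt_logb_iff_rpow_lt (by norm_num) (by norm_num)]
      norm_num
    linarith

end Pool.Agent.Results.MP_fef54c_co.ThreeRows
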